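import Mathlib

set_option autoImplicit false

open Finset
open scoped Pointwise

namespace Run7.h268

/-- Number-theoretic core: two lines of slopes `mi`, `mj` modulo `N^2`, whose slope difference
has the small inverse `δ`, together represent every residue modulo `N ^ 2`. -/
theorem core (N L δ mi mj : ℤ) (hN : 0 < N) (hδ : 0 ≤ δ) (hδL : δ ≤ L)
    (h : N ∣ δ * (mj - mi) - 1) (x : ℤ) :
    ∃ a b : ℤ, -L ≤ a ∧ a ≤ N + L ∧ -L ≤ b ∧ b ≤ N + L ∧
      N ^ 2 ∣ a * (1 + N * mi) + b * (1 + N * mj) - x := by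
  obtain ⟨k, hk⟩ := h
  set x0 := x % N with hx0
  set x1 := x / N with hx1
  have hx : x = x0 + N * x1 := by
    rw [hx0, hx1]; exact (Int.emod_add_mul_ediv x N).symm
  have h0 : 0 ≤ x0 := Int.emod_nonneg _ hN.ne'
  have h0' : x0 < N := Int.emod_lt_of_pos _ hN
  set c := (x1 - x0 * mi) * δ with hc
  set b0 := c % N with hb0
  have hb : 0 ≤ b0 := Int.emod_nonneg _ hN.ne'
  have hb' : b0 < N := Int.emod_lt_of_pos _ hN
  have hcb : c = b0 + N * (c / N) := by
    rw [hb0]; exact (Int.emod_add_mul_ediv c N).symm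
  set r := c / N with hr
  rcases le_or_gt b0 x0 with hle | hgt
  · refine ⟨x0 - b0, b0, by linarith, by linarith, by linarith, by linarith, ?_⟩
    refine ⟨(x1 - x0 * mi) * k - r * (mj - mi), ?_⟩
    have hb0e : b0 = (x1 - x0 * mi) * δ - N * r := by rw [← hc]; linarith
    rw [hx, hb0e]
    linear_combination (x1 - x0 * mi) * N * hk
  · refine ⟨x0 + N - b0 + δ, b0 - δ, by linarith, by linarith, by linarith, by linarith, ?_⟩
    refine ⟨(x1 - x0 * mi) * k - r * (mj - mi) + mi - k, ?_⟩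
    have hb0e : b0 = (x1 - x0 * mi) * δ - N * r := by rw [← hc]; linarith
    rw [hx, hb0e]
    linear_combination ((x1 - x0 * mi) * N - N) * hk

/-- Lines lemma: if the sums `s i + s j` (`i < j`) of an `M`-tuple `s` cover `ZMod n`, and `N` is
coprime to `n` and to `(M-1)!`, then `ZMod (n * N ^ 2)` has an additive basis of order two of size
at most `M * (N + 2 (M-1)! + 1)`. -/
theorem lines {n M : ℕ} (s : Fin M → ZMod n) (hs : ∀ x, ∃ i j, i < j ∧ s i + s j = x)
    (N : ℕ) (hN0 : 0 < N) (hN : n.Coprime N) (hNL : ((M - 1).factorial).Coprime N) :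
    ∃ A : Finset (ZMod (n * N ^ 2)), (∀ x, ∃ a ∈ A, ∃ b ∈ A, a + b = x) ∧
      A.card ≤ M * (N + 2 * (M - 1).factorial + 1) := by
  classical
  set L : ℕ := (M - 1).factorial with hL
  -- inverse of `L` modulo `N`
  obtain ⟨L', hL'⟩ : ∃ L' : ℤ, (N : ℤ) ∣ L * L' - 1 := by
    have hcop : IsCoprime (L : ℤ) (N : ℤ) := Nat.isCoprime_iff_coprime.mpr hNL
    obtain ⟨a, b, hab⟩ := hcop
    exact ⟨a, -b, by linarith⟩
  have hcopn : n.Coprime (N ^ 2) := Nat.Coprime.pow_right 2 hN
  let e : ZMod (n * N ^ 2) ≃+* ZMod n × ZMod (N ^ 2) := ZMod.chineseRemainder hcopn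
  let C : Fin M → ℤ → ZMod (N ^ 2) := fun i a => ((a * (1 + N * ((i : ℕ) * L')) : ℤ) : ZMod (N ^ 2))
  let A : Finset (ZMod (n * N ^ 2)) :=
    (Finset.univ : Finset (Fin M)).biUnion fun i =>
      (Finset.Icc (-(L : ℤ)) (N + L)).image fun a => e.symm (s i, C i a)
  refine ⟨A, ?_, ?_⟩
  · intro x
    obtain ⟨i, j, hij, hsx⟩ := hs (e x).1
    -- integer representative of the second coordinate
    obtain ⟨y, hy⟩ : ∃ y : ℤ, (y : ZMod (N ^ 2)) = (e x).2 := ZMod.intCast_surjective _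
    -- t = j - i
    have hlt : (i : ℕ) < (j : ℕ) := hij
    have htM : (j : ℕ) - i ≤ M - 1 := by have := j.isLt; omega
    have htpos : 0 < (j : ℕ) - i := by omega
    obtain ⟨d, hd⟩ : ((j : ℕ) - i) ∣ L := Nat.dvd_factorial htpos htM
    have hdL : d ≤ L := by
      rw [hd]; exact Nat.le_mul_of_pos_left d htpos
    have hcast : (((j : ℕ) - (i : ℕ) : ℕ) : ℤ) = (j : ℕ) - (i : ℕ) := by
      push_cast [Nat.cast_sub hlt.le]; ring
    have hdvd : (N : ℤ) ∣ (d : ℤ) * (((j : ℕ) : ℤ) * L' - ((i : ℕ) : ℤ) * L') - 1 := by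
      have : (d : ℤ) * (((j : ℕ) : ℤ) * L' - ((i : ℕ) : ℤ) * L') - 1 = L * L' - 1 := by
        have hd' : (L : ℤ) = (((j : ℕ) : ℤ) - (i : ℕ)) * d := by
          rw [← hcast, ← Nat.cast_mul, ← hd]
        rw [hd']; ring
      rw [this]; exact hL'
    obtain ⟨a, b, ha1, ha2, hb1, hb2, hab⟩ :=
      core N L d (((i : ℕ) : ℤ) * L') (((j : ℕ) : ℤ) * L') (by exact_mod_cast hN0)
        (by positivity) (by exact_mod_cast hdL) hdvd y
    refine ⟨e.symm (s i, C i a), ?_, e.symm (s j, C j b), ?_, ?_⟩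
    · simp only [A, Finset.mem_biUnion, Finset.mem_image, Finset.mem_univ, true_and]
      exact ⟨i, a, Finset.mem_Icc.mpr ⟨ha1, ha2⟩, rfl⟩
    · simp only [A, Finset.mem_biUnion, Finset.mem_image, Finset.mem_univ, true_and]
      exact ⟨j, b, Finset.mem_Icc.mpr ⟨hb1, hb2⟩, rfl⟩
    · rw [← map_add]
      apply (RingEquiv.symm_apply_eq e).mpr
      apply Prod.ext
      · simpa using hsx
      · have : ((a * (1 + N * (((i : ℕ) : ℤ) * L')) + b * (1 + N * (((j : ℕ) : ℤ) * L')) : ℤ) :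
            ZMod (N ^ 2)) = (y : ZMod (N ^ 2)) := by
          rw [← sub_eq_zero, ← Int.cast_sub, ZMod.intCast_zmod_eq_zero_iff_dvd]
          push_cast
          exact hab
        rw [← hy, ← this]
        simp only [C, Prod.snd_add]
        push_cast
        ring
  · calc A.card ≤ ∑ i : Fin M, ((Finset.Icc (-(L : ℤ)) (N + L)).image
            fun a => e.symm (s i, C i a)).card := Finset.card_biUnion_le
      _ ≤ ∑ _i : Fin M, (N + 2 * L + 1) := by
          apply Finset.sum_le_sum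
          intro i _
          refine Finset.card_image_le.trans ?_
          rw [Int.card_Icc]
          omega
      _ = M * (N + 2 * L + 1) := by simp

end Run7.h268
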