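import Mathlib
import Pool.Agent.Run7.h268.Lines

set_option autoImplicit false

open Finset Filter
open scoped Pointwise

namespace Run7.h268

/-- An `M`-tuple in `ZMod n` with `s i + s j` (`i < j`) covering `ZMod n` gives infinitely many
moduli `q` with a basis of size at most `(M / √n + ε) √q`. -/
theorem frequently_of_tuple {n M : ℕ} (hn : 0 < n) (s : Fin M → ZMod n)
    (hs : ∀ x, ∃ i j, i < j ∧ s i + s j = x) (ε : ℝ) (hε : 0 < ε) :
    ∃ᶠ q : ℕ+ in atTop, ∃ A : Finset (ZMod q), A + A = Finset.univ ∧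
      (A.card : ℝ) / Real.sqrt q < M / Real.sqrt n + ε := by
  classical
  rw [Filter.frequently_atTop]
  intro q0
  set L : ℕ := (M - 1).factorial with hL
  have hLpos : 0 < L := Nat.factorial_pos _
  -- choose `k` large
  obtain ⟨k, hk⟩ : ∃ k : ℕ, (M * (2 * L + 1) : ℝ) / ε + q0 < k := exists_nat_gt _
  set N : ℕ := k * (n * L) + 1 with hNdef
  have hN0 : 0 < N := Nat.succ_pos _
  have hcop1 : n.Coprime N := by
    rw [hNdef]
    have : k * (n * L) + 1 = n * (L * k) + 1 := by ring
    rw [this]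
    exact (Nat.coprime_mul_right_add_right n 1 (L * k)).mpr (Nat.coprime_one_right n)
      |> fun h => by simp [Nat.mul_comm]
  have hcop2 : L.Coprime N := by
    rw [hNdef]
    have : k * (n * L) + 1 = L * (n * k) + 1 := by ring
    rw [this]
    simp
  obtain ⟨A, hA, hcard⟩ := lines s hs N hN0 hcop1 hcop2
  have hqpos : 0 < n * N ^ 2 := by positivity
  have hkN : (k : ℝ) ≤ N := by
    rw [hNdef]; push_cast
    have : (1 : ℝ) ≤ n * L := by exact_mod_cast Nat.mul_pos hn hLpos
    nlinarith [Nat.cast_nonneg (α := ℝ) k]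
  have hNr : (0 : ℝ) < N := by exact_mod_cast hN0
  have hnr : (0 : ℝ) < n := by exact_mod_cast hn
  have hn1 : (1 : ℝ) ≤ n := by exact_mod_cast hn
  have hkr : (M * (2 * L + 1) : ℝ) / ε + q0 < N := lt_of_lt_of_le hk hkN
  refine ⟨⟨n * N ^ 2, hqpos⟩, ?_, A, ?_, ?_⟩
  · -- q ≥ q0
    change (q0 : ℕ) ≤ n * N ^ 2
    have h1 : (q0 : ℝ) < N := by
      have : 0 ≤ (M * (2 * L + 1) : ℝ) / ε := by positivity
      linarith
    have h2 : (q0 : ℕ) < N := by exact_mod_cast h1
    nlinarith
  · ext x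
    simp only [Finset.mem_univ, iff_true]
    obtain ⟨a, ha, b, hb, hab⟩ := hA x
    exact Finset.mem_add.mpr ⟨a, ha, b, hb, hab⟩
  · change (A.card : ℝ) / Real.sqrt ((n * N ^ 2 : ℕ) : ℝ) < M / Real.sqrt n + ε
    have hsq : Real.sqrt ((n * N ^ 2 : ℕ) : ℝ) = Real.sqrt n * N := by
      push_cast
      rw [Real.sqrt_mul hnr.le, Real.sqrt_sq hNr.le]
    rw [hsq]
    have hs1 : (1 : ℝ) ≤ Real.sqrt n := by
      rw [show (1 : ℝ) = Real.sqrt 1 by simp]
      exact Real.sqrt_le_sqrt hn1
    have hspos : (0 : ℝ) < Real.sqrt n := by linarith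
    have hcr : (A.card : ℝ) ≤ M * (N + 2 * L + 1) := by exact_mod_cast hcard
    have hM0 : (0 : ℝ) ≤ M * (2 * L + 1) := by positivity
    have h3 : (M * (2 * L + 1) : ℝ) < ε * N := by
      have : (M * (2 * L + 1) : ℝ) / ε < N := by
        have : (0 : ℝ) < q0 := by exact_mod_cast q0.pos
        linarith
      rw [div_lt_iff₀ hε] at this
      linarith
    calc (A.card : ℝ) / (Real.sqrt n * N) ≤ (M * (N + 2 * L + 1)) / (Real.sqrt n * N) := by
          gcongr
      _ = M / Real.sqrt n + (M * (2 * L + 1)) / (Real.sqrt n * N) := by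
          field_simp
          ring
      _ < M / Real.sqrt n + ε := by
          gcongr
          rw [div_lt_iff₀ (by positivity)]
          calc (M * (2 * L + 1) : ℝ) < ε * N := h3
            _ ≤ ε * (Real.sqrt n * N) := by
              gcongr
              nlinarith

end Run7.h268
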