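import Mathlib
import Pool.Agent.Run7.h268.Lines

/-!
# The lines construction over an arbitrary finite abelian group `K`
-/

set_option autoImplicit false

open Finset
open scoped Pointwise

namespace Run7.h268

/-- If the sums `s i + s j` (`i ≠ j`) of an `M`-tuple `s` cover the finite abelian group `K`, and
`N` is coprime to `(M-1)!`, then `K × ZMod (N ^ 2)` has a basis of order two of size at most
`M * (N + 2 (M-1)! + 1)`. -/
theorem linesK {K : Type} [AddCommGroup K] [DecidableEq K] {M : ℕ} (s : Fin M → K)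
    (hs : ∀ x, ∃ i j, i ≠ j ∧ s i + s j = x)
    (N : ℕ) (hN0 : 0 < N) (hNL : ((M - 1).factorial).Coprime N) :
    ∃ A : Finset (K × ZMod (N ^ 2)), (∀ x, ∃ a ∈ A, ∃ b ∈ A, a + b = x) ∧
      A.card ≤ M * (N + 2 * (M - 1).factorial + 1) := by
  classical
  set L : ℕ := (M - 1).factorial with hL
  obtain ⟨L', hL'⟩ : ∃ L' : ℤ, (N : ℤ) ∣ L * L' - 1 := by
    have hcop : IsCoprime (L : ℤ) (N : ℤ) := Nat.isCoprime_iff_coprime.mpr hNL
    obtain ⟨a, b, hab⟩ := hcop
    exact ⟨a, -b, by linarith⟩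
  let C : Fin M → ℤ → ZMod (N ^ 2) := fun i a => ((a * (1 + N * ((i : ℕ) * L')) : ℤ) : ZMod (N ^ 2))
  let A : Finset (K × ZMod (N ^ 2)) :=
    (Finset.univ : Finset (Fin M)).biUnion fun i =>
      (Finset.Icc (-(L : ℤ)) (N + L)).image fun a => (s i, C i a)
  have key : ∀ (x : K × ZMod (N ^ 2)) (i j : Fin M), i < j → s i + s j = x.1 →
      ∃ a ∈ A, ∃ b ∈ A, a + b = x := by
    intro x i j hij hsx
    obtain ⟨y, hy⟩ : ∃ y : ℤ, (y : ZMod (N ^ 2)) = x.2 := ZMod.intCast_surjective _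
    have hlt : (i : ℕ) < (j : ℕ) := hij
    have htM : (j : ℕ) - i ≤ M - 1 := by have := j.isLt; omega
    have htpos : 0 < (j : ℕ) - i := by omega
    obtain ⟨d, hd⟩ : ((j : ℕ) - i) ∣ L := Nat.dvd_factorial htpos htM
    have hdL : d ≤ L := by
      rw [hd]; exact Nat.le_mul_of_pos_left d htpos
    have hcast : (((j : ℕ) - (i : ℕ) : ℕ) : ℤ) = (j : ℕ) - (i : ℕ) := by
      push_cast [Nat.cast_sub hlt.le]; ring
    have hdvd : (N : ℤ) ∣ (d : ℤ) * (((j : ℕ) : ℤ) * L' - ((i : ℕ) : ℤ) * L') - 1 := by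
      have : (d : ℤ) * (((j : ℕ) : ℤ) * L' - ((i : ℕ) : ℤ) * L') - 1 = L * L' - 1 := by
        have hd' : (L : ℤ) = (((j : ℕ) : ℤ) - (i : ℕ)) * d := by
          rw [← hcast, ← Nat.cast_mul, ← hd]
        rw [hd']; ring
      rw [this]; exact hL'
    obtain ⟨a, b, ha1, ha2, hb1, hb2, hab⟩ :=
      core N L d (((i : ℕ) : ℤ) * L') (((j : ℕ) : ℤ) * L') (by exact_mod_cast hN0)
        (by positivity) (by exact_mod_cast hdL) hdvd y
    refine ⟨(s i, C i a), ?_, (s j, C j b), ?_, ?_⟩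
    · simp only [A, Finset.mem_biUnion, Finset.mem_image, Finset.mem_univ, true_and]
      exact ⟨i, a, Finset.mem_Icc.mpr ⟨ha1, ha2⟩, rfl⟩
    · simp only [A, Finset.mem_biUnion, Finset.mem_image, Finset.mem_univ, true_and]
      exact ⟨j, b, Finset.mem_Icc.mpr ⟨hb1, hb2⟩, rfl⟩
    · apply Prod.ext
      · simpa using hsx
      · have : ((a * (1 + N * (((i : ℕ) : ℤ) * L')) + b * (1 + N * (((j : ℕ) : ℤ) * L')) : ℤ) :
            ZMod (N ^ 2)) = (y : ZMod (N ^ 2)) := by
          rw [← sub_eq_zero, ← Int.cast_sub, ZMod.intCast_zmod_eq_zero_iff_dvd]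
          push_cast
          exact hab
        rw [← hy, ← this]
        simp only [C, Prod.snd_add]
        push_cast
        ring
  refine ⟨A, ?_, ?_⟩
  · intro x
    obtain ⟨i, j, hij, hsx⟩ := hs x.1
    rcases lt_or_gt_of_ne hij with h | h
    · exact key x i j h hsx
    · exact key x j i h (by rw [add_comm]; exact hsx)
  · calc A.card ≤ ∑ i : Fin M, ((Finset.Icc (-(L : ℤ)) (N + L)).image
            fun a => (s i, C i a)).card := Finset.card_biUnion_le
      _ ≤ ∑ _i : Fin M, (N + 2 * L + 1) := by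
          apply Finset.sum_le_sum
          intro i _
          refine Finset.card_image_le.trans ?_
          rw [Int.card_Icc]
          omega
      _ = M * (N + 2 * L + 1) := by simp

end Run7.h268
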