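import Mathlib

/-!
# The Artin-Schreier alternative in finite fields with `2 ^ m` elements, `m` odd
-/

set_option autoImplicit false

namespace Run7.h268

variable {F : Type} [Field F] [Fintype F] [CharP F 2]

/-- The additive map `x ↦ x² + x` in characteristic two. -/
def wp (F : Type) [Field F] [CharP F 2] : F →+ F where
  toFun x := x * x + x
  map_zero' := by simp
  map_add' x y := by
    have h := CharTwo.add_self_eq_zero (x * y)
    linear_combination h

omit [Fintype F] in
theorem mem_ker_wp (x : F) : x ∈ (wp F).ker ↔ x = 0 ∨ x = 1 := by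
  rw [AddMonoidHom.mem_ker]
  change x * x + x = 0 ↔ _
  constructor
  · intro h
    have : x * (x + 1) = 0 := by linear_combination h
    rcases mul_eq_zero.mp this with h | h
    · exact Or.inl h
    · right
      have := CharTwo.add_eq_iff_eq_add.mp h
      simpa using this
  · rintro (rfl | rfl)
    · simp
    · have := CharTwo.add_self_eq_zero (1 : F)
      linear_combination this

theorem card_ker_wp : Nat.card (wp F).ker = 2 := by
  classical
  have : ((wp F).ker : Set F) = {0, 1} := by
    ext x
    simpa using mem_ker_wp x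
  have h2 : Nat.card (wp F).ker = Nat.card ((wp F).ker : Set F) := rfl
  rw [h2, this]
  rw [Nat.card_coe_set_eq]
  exact Set.ncard_pair zero_ne_one

theorem index_range_wp : (wp F).range.index = 2 := by
  have : (wp F).ker.FiniteIndex := inferInstance
  rw [AddSubgroup.index_range, card_ker_wp]

theorem one_notMem_range_wp {m : ℕ} (hm : Odd m) (hF : Fintype.card F = 2 ^ m) :
    (1 : F) ∉ (wp F).range := by
  rintro ⟨u, hu⟩
  change u * u + u = 1 at hu
  have h3 : u ^ 3 = 1 := by
    have h := CharTwo.add_self_eq_zero (u * u)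
    have h' := CharTwo.add_self_eq_zero u
    have h1 := CharTwo.add_self_eq_zero (1 : F)
    linear_combination (u - 1) * hu + h' - h1
  have hpow : u ^ (2 ^ m) = u := by rw [← hF]; exact FiniteField.pow_card u
  have hmod : 2 ^ m % 3 = 2 := by
    obtain ⟨k, rfl⟩ := hm
    rw [pow_add, pow_mul]
    simp [Nat.mul_mod, Nat.pow_mod]
  have hdiv : 2 ^ m = 3 * (2 ^ m / 3) + 2 := by omega
  rw [hdiv, pow_add, pow_mul, h3, one_pow, one_mul] at hpow
  -- u ^ 2 = u, so u * u + u = 0
  have h0 : u * u + u = 0 := by
    have h := CharTwo.add_self_eq_zero u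
    linear_combination hpow + h
  rw [h0] at hu
  exact zero_ne_one hu

/-- In a field with `2 ^ m` elements, `m` odd, one of `c`, `c + 1` is of the form `u² + u`. -/
theorem artin_schreier {m : ℕ} (hm : Odd m) (hF : Fintype.card F = 2 ^ m) (c : F) :
    (∃ u : F, u * u + u = c) ∨ ∃ u : F, u * u + u = c + 1 := by
  by_cases hc : c ∈ (wp F).range
  · obtain ⟨u, hu⟩ := hc
    exact Or.inl ⟨u, hu⟩
  · right
    have h1 := one_notMem_range_wp hm hF
    have : c + 1 ∈ (wp F).range := by
      rw [AddSubgroup.add_mem_iff_of_index_two index_range_wp]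
      exact ⟨fun h => absurd h hc, fun h => absurd h h1⟩
    obtain ⟨u, hu⟩ := this
    exact ⟨u, hu⟩

end Run7.h268
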