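import Mathlib

/-!
# Near-perfect additive bases in the groups `W₂(F) × ℤ/2`, `F` of characteristic two

The group `W₂(F)` of Witt vectors of length two over a field `F` of characteristic two, realised on
pairs `(x, t)` with `(x, t) + (x', t') = (x + x', t + t' + x x')`.
-/

set_option autoImplicit false

namespace Run7.h268

/-- Witt vectors of length two over `F` (characteristic two), as pairs. -/
@[ext]
structure W (F : Type) where
  x : F
  t : F

namespace W

variable {F : Type} [Field F]

instance : Zero (W F) := ⟨⟨0, 0⟩⟩
instance : Add (W F) := ⟨fun a b => ⟨a.x + b.x, a.t + b.t + a.x * b.x⟩⟩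
instance : Neg (W F) := ⟨fun a => ⟨a.x, a.t + a.x * a.x⟩⟩

@[simp] theorem zero_x : (0 : W F).x = 0 := rfl
@[simp] theorem zero_t : (0 : W F).t = 0 := rfl
@[simp] theorem add_x (a b : W F) : (a + b).x = a.x + b.x := rfl
@[simp] theorem add_t (a b : W F) : (a + b).t = a.t + b.t + a.x * b.x := rfl
@[simp] theorem neg_x (a : W F) : (-a).x = a.x := rfl
@[simp] theorem neg_t (a : W F) : (-a).t = a.t + a.x * a.x := rfl

instance [CharP F 2] : AddCommGroup (W F) where
  add_assoc a b c := by ext <;> simp <;> ring
  zero_add a := by ext <;> simp
  add_zero a := by ext <;> simp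
  nsmul := nsmulRec
  zsmul := zsmulRec
  neg_add_cancel a := by
    ext
    · simp [CharTwo.add_self_eq_zero]
    · have h := CharTwo.add_self_eq_zero a.t
      have h' := CharTwo.add_self_eq_zero (a.x * a.x)
      simp only [add_t, neg_t, neg_x, zero_t]
      linear_combination h + h'
  add_comm a b := by ext <;> simp <;> ring

/-- `W F` is `F × F` as a set. -/
def equivProd (F : Type) : W F ≃ F × F where
  toFun a := (a.x, a.t)
  invFun p := ⟨p.1, p.2⟩
  left_inv _ := rfl
  right_inv _ := rfl

instance [Fintype F] : Fintype (W F) := Fintype.ofEquiv _ (equivProd F).symm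

omit [Field F] in
theorem card_W [Fintype F] : Fintype.card (W F) = Fintype.card F * Fintype.card F := by
  rw [Fintype.card_congr (equivProd F), Fintype.card_prod]

end W

end Run7.h268
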