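import Mathlib
import Pool.Agent.Run7.h268.WittTwo
import Pool.Agent.Run7.h268.ArtinSchreier

/-!
# Near-perfect additive bases of finite abelian groups
-/

set_option autoImplicit false

open scoped Pointwise

namespace Run7.h268

/-- A finite additive group of order `2 ^ m` is `U + V` with `|U| ≤ 2 ^ j`, `|V| ≤ 2 ^ (m - j)`. -/
theorem exists_add_cover (F : Type) [AddCommGroup F] [Fintype F] [DecidableEq F] {m j : ℕ}
    (hF : Fintype.card F = 2 ^ m) (hj : j ≤ m) :
    ∃ U V : Finset F, U.card ≤ 2 ^ j ∧ V.card ≤ 2 ^ (m - j) ∧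
      ∀ t, ∃ u ∈ U, ∃ v ∈ V, u + v = t := by
  classical
  have : Fact (Nat.Prime 2) := ⟨Nat.prime_two⟩
  have hcard : Nat.card (Multiplicative F) = 2 ^ m := by
    rw [Nat.card_eq_fintype_card, Fintype.card_multiplicative]; exact hF
  obtain ⟨K, hK⟩ := Sylow.exists_subgroup_card_pow_prime (G := Multiplicative F) 2 (n := j)
    (by rw [hcard]; exact pow_dvd_pow 2 hj)
  have hindex : K.index = 2 ^ (m - j) := by
    have h := K.card_mul_index
    rw [hK, hcard] at h
    have h2 : 2 ^ m = 2 ^ j * 2 ^ (m - j) := by rw [← pow_add]; congr 1; omega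
    rw [h2] at h
    exact Nat.eq_of_mul_eq_mul_left (by positivity) h
  refine ⟨Finset.univ.filter (fun x => Multiplicative.ofAdd x ∈ K),
    Finset.univ.image (fun q : Multiplicative F ⧸ K => Multiplicative.toAdd (Quotient.out q)),
    ?_, ?_, ?_⟩
  · rw [← hK, Nat.card_eq_fintype_card, Fintype.card_subtype]
    exact le_of_eq (Finset.card_bij (fun x _ => Multiplicative.ofAdd x)
      (by intro x hx; simpa using hx) (by intro a _ b _ h; exact h)
      (by intro b hb; exact ⟨Multiplicative.toAdd b, by simpa using hb, rfl⟩))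
  · refine Finset.card_image_le.trans ?_
    rw [Finset.card_univ, ← Nat.card_eq_fintype_card, ← hindex]
    rfl
  · intro t
    set q : Multiplicative F ⧸ K := QuotientGroup.mk (Multiplicative.ofAdd t) with hq
    have hmem : (Quotient.out q)⁻¹ * Multiplicative.ofAdd t ∈ K := by
      rw [← QuotientGroup.eq, ← hq]
      exact Quotient.out_eq q
    refine ⟨t - Multiplicative.toAdd (Quotient.out q), ?_, Multiplicative.toAdd (Quotient.out q),
      ?_, by simp⟩
    · simp only [Finset.mem_filter, Finset.mem_univ, true_and]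
      have : Multiplicative.ofAdd (t - Multiplicative.toAdd (Quotient.out q)) =
          (Quotient.out q)⁻¹ * Multiplicative.ofAdd t := by
        rw [ofAdd_sub, ofAdd_toAdd, div_eq_mul_inv, mul_comm]
      rw [this]; exact hmem
    · exact Finset.mem_image_of_mem _ (Finset.mem_univ q)

variable {F : Type} [Field F] [Fintype F] [CharP F 2]

/-- The near-perfect basis of `W F × ZMod 2`. -/
noncomputable def basisSet (F : Type) [Field F] [Fintype F] [DecidableEq (W F × ZMod 2)]
    (U V : Finset F) : Finset (W F × ZMod 2) :=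
  ((Finset.univ.image fun x : F => ((⟨x, 0⟩ : W F), (0 : ZMod 2))) ∪
    (Finset.univ.image fun x : F => ((⟨x, x * x⟩ : W F), (1 : ZMod 2)))) ∪
  ((U.image fun u => ((⟨0, u⟩ : W F), (0 : ZMod 2))) ∪
    (V.image fun v => ((⟨0, v⟩ : W F), (1 : ZMod 2))))

theorem basisSet_covers [DecidableEq (W F × ZMod 2)] {m : ℕ} (hm : Odd m)
    (hF : Fintype.card F = 2 ^ m) (U V : Finset F)
    (hUV : ∀ t, ∃ u ∈ U, ∃ v ∈ V, u + v = t) (g : W F × ZMod 2) :
    ∃ a ∈ basisSet F U V, ∃ b ∈ basisSet F U V, a + b = g := by
  classical
  have hT : ∀ x : F, (((⟨x, 0⟩ : W F), (0 : ZMod 2))) ∈ basisSet F U V := fun x => by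
    simp [basisSet]
  have hN : ∀ x : F, (((⟨x, x * x⟩ : W F), (1 : ZMod 2))) ∈ basisSet F U V := fun x => by
    simp only [basisSet, Finset.mem_union, Finset.mem_image, Finset.mem_univ, true_and]
    exact Or.inl (Or.inr ⟨x, rfl⟩)
  have hU : ∀ u ∈ U, (((⟨0, u⟩ : W F), (0 : ZMod 2))) ∈ basisSet F U V := fun u hu => by
    simp only [basisSet, Finset.mem_union, Finset.mem_image, Finset.mem_univ, true_and]
    exact Or.inr (Or.inl ⟨u, hu, rfl⟩)
  have hV : ∀ v ∈ V, (((⟨0, v⟩ : W F), (1 : ZMod 2))) ∈ basisSet F U V := fun v hv => by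
    simp only [basisSet, Finset.mem_union, Finset.mem_image, Finset.mem_univ, true_and]
    exact Or.inr (Or.inr ⟨v, hv, rfl⟩)
  obtain ⟨⟨s, t⟩, e⟩ := g
  have he : e = 0 ∨ e = 1 := by
    revert e; decide
  have h11 : (1 : ZMod 2) + 1 = 0 := by decide
  rcases he with rfl | rfl
  · by_cases hs : s = 0
    · subst hs
      have hchar : ringChar F = 2 := ringChar.eq F 2 ▸ rfl
      obtain ⟨x, hx⟩ := FiniteField.isSquare_of_char_two hchar t
      refine ⟨_, hT x, _, hT x, ?_⟩
      ext
      · simp [CharTwo.add_self_eq_zero]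
      · simp [hx]
      · simp
    · rcases artin_schreier hm hF (t / (s * s)) with ⟨u, hu⟩ | ⟨u, hu⟩
      · have hu' : s * s * (u * u + u) = t := by rw [hu]; field_simp
        refine ⟨_, hT (s * u), _, hT (s * u + s), ?_⟩
        have h0 := CharTwo.add_self_eq_zero (s * u)
        ext
        · simp only [Prod.fst_add, W.add_x]
          linear_combination h0
        · simp only [Prod.fst_add, W.add_t]
          linear_combination hu'
        · simp
      · have hu' : s * s * (u * u + u) = t + s * s := by rw [hu]; field_simp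
        refine ⟨_, hN (s * u), _, hN (s * u + s), ?_⟩
        have h0 := CharTwo.add_self_eq_zero (s * u)
        have h1 := CharTwo.add_self_eq_zero (s * u * (s * u))
        have h2 := CharTwo.add_self_eq_zero (s * s * u)
        have h3 := CharTwo.add_self_eq_zero (s * s)
        ext
        · simp only [Prod.fst_add, W.add_x]
          linear_combination h0
        · simp only [Prod.fst_add, W.add_t]
          linear_combination hu' + h1 + h2 + h3
        · simp [h11]
  · by_cases hs : s = 0
    · subst hs
      obtain ⟨u, hu, v, hv, huv⟩ := hUV t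
      refine ⟨_, hU u hu, _, hV v hv, ?_⟩
      ext
      · simp
      · simp [huv]
      · simp
    · refine ⟨_, hT (s + t / s), _, hN (t / s), ?_⟩
      have h0 := CharTwo.add_self_eq_zero (t / s)
      have h1 := CharTwo.add_self_eq_zero (t / s * (t / s))
      have h2 : s * (t / s) = t := by field_simp
      ext
      · simp only [Prod.fst_add, W.add_x]
        linear_combination h0
      · simp only [Prod.fst_add, W.add_t]
        linear_combination h2 + h1
      · simp

omit [CharP F 2] in
theorem basisSet_card_le [DecidableEq (W F × ZMod 2)] (U V : Finset F) :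
    (basisSet F U V).card ≤ 2 * Fintype.card F + (U.card + V.card) := by
  unfold basisSet
  refine (Finset.card_union_le _ _).trans ?_
  refine Nat.add_le_add ((Finset.card_union_le _ _).trans ?_) ((Finset.card_union_le _ _).trans ?_)
  · have h1 : (Finset.univ.image fun x : F => ((⟨x, 0⟩ : W F), (0 : ZMod 2))).card
        ≤ Fintype.card F := Finset.card_image_le
    have h2 : (Finset.univ.image fun x : F => ((⟨x, x * x⟩ : W F), (1 : ZMod 2))).card
        ≤ Fintype.card F := Finset.card_image_le
    omega
  · exact Nat.add_le_add Finset.card_image_le Finset.card_image_le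

omit [CharP F 2] in
theorem basisSet_card_ge [DecidableEq (W F × ZMod 2)] (U V : Finset F) :
    2 * Fintype.card F ≤ (basisSet F U V).card := by
  have h1 : (Finset.univ.image fun x : F => ((⟨x, 0⟩ : W F), (0 : ZMod 2))).card
      = Fintype.card F := by
    rw [Finset.card_image_of_injective _ ?_, Finset.card_univ]
    intro a b h
    simpa using congrArg (fun p => p.1.x) h
  have h2 : (Finset.univ.image fun x : F => ((⟨x, x * x⟩ : W F), (1 : ZMod 2))).card
      = Fintype.card F := by
    rw [Finset.card_image_of_injective _ ?_, Finset.card_univ]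
    intro a b h
    simpa using congrArg (fun p => p.1.x) h
  have hd : Disjoint (Finset.univ.image fun x : F => ((⟨x, 0⟩ : W F), (0 : ZMod 2)))
      (Finset.univ.image fun x : F => ((⟨x, x * x⟩ : W F), (1 : ZMod 2))) := by
    rw [Finset.disjoint_left]
    intro p hp hq
    simp only [Finset.mem_image, Finset.mem_univ, true_and] at hp hq
    obtain ⟨a, ha⟩ := hp
    obtain ⟨b, hb⟩ := hq
    have h0 : (0 : ZMod 2) = 1 := by
      exact congrArg Prod.snd (ha.trans hb.symm)
    exact absurd h0 (by decide)
  have h3 := Finset.card_union_of_disjoint hd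
  have h4 : ((Finset.univ.image fun x : F => ((⟨x, 0⟩ : W F), (0 : ZMod 2))) ∪
      (Finset.univ.image fun x : F => ((⟨x, x * x⟩ : W F), (1 : ZMod 2)))).card ≤
      (basisSet F U V).card := Finset.card_le_card Finset.subset_union_left
  omega

end Run7.h268
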