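import Mathlib
import Pool.Agent.Run7.h268.WittTwo

/-!
# `W F` is isomorphic to `(ZMod 4) ^ m` when `F` has `2 ^ m` elements
-/

set_option autoImplicit false

namespace Run7.h268

variable {F : Type} [Field F] [CharP F 2]

/-- The first coordinate as an additive map. -/
def projX (F : Type) [Field F] [CharP F 2] : W F →+ F where
  toFun a := a.x
  map_zero' := rfl
  map_add' _ _ := rfl

theorem two_nsmul_W (a : W F) : 2 • a = ⟨0, a.x * a.x⟩ := by
  rw [two_nsmul]
  ext
  · simp [CharTwo.add_self_eq_zero]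
  · simp [CharTwo.add_self_eq_zero]

theorem four_nsmul_W (a : W F) : 4 • a = 0 := by
  rw [show 4 = 2 * 2 from rfl, mul_nsmul, two_nsmul_W, two_nsmul_W]
  ext <;> simp

/-- The homomorphism `ZMod 4 → W F` with `1 ↦ a`. -/
def hom4 (a : W F) : ZMod 4 →+ W F :=
  ZMod.lift 4 ⟨zmultiplesHom (W F) a, by
    simp only [zmultiplesHom_apply]
    have := four_nsmul_W a
    rw [← natCast_zsmul] at this
    exact this⟩

theorem hom4_natCast (a : W F) (n : ℕ) : hom4 a (n : ZMod 4) = n • a := by
  unfold hom4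
  have : ((n : ℤ) : ZMod 4) = (n : ZMod 4) := by simp
  rw [← this, ZMod.lift_coe]
  simp

/-- The homomorphism `(ZMod 4) ^ m → W F` given by a tuple of elements of `F`. -/
def homPi {m : ℕ} (b : Fin m → F) : (Fin m → ZMod 4) →+ W F :=
  ∑ i, (hom4 (⟨b i, 0⟩ : W F)).comp (Pi.evalAddMonoidHom (fun _ => ZMod 4) i)

theorem homPi_apply {m : ℕ} (b : Fin m → F) (c : Fin m → ZMod 4) :
    homPi b c = ∑ i, hom4 (⟨b i, 0⟩ : W F) (c i) := by
  simp [homPi]

theorem homPi_lift_x {m : ℕ} [Algebra (ZMod 2) F] (b : Module.Basis (Fin m) (ZMod 2) F) (x : F) :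
    (homPi b (fun i => (((b.repr x) i).val : ZMod 4))).x = x := by
  rw [homPi_apply]
  change projX F _ = x
  rw [map_sum]
  conv_rhs => rw [← b.sum_repr x]
  refine Finset.sum_congr rfl fun i _ => ?_
  rw [hom4_natCast, map_nsmul]
  change ((b.repr x) i).val • (b i) = _
  rw [← Nat.cast_smul_eq_nsmul (ZMod 2), ZMod.natCast_zmod_val]

theorem homPi_surjective {m : ℕ} [Finite F] [Algebra (ZMod 2) F]
    (b : Module.Basis (Fin m) (ZMod 2) F) : Function.Surjective (homPi b) := by
  intro w
  set c : Fin m → ZMod 4 := fun i => (((b.repr w.x) i).val : ZMod 4) with hc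
  have hcx : (homPi b c).x = w.x := homPi_lift_x b w.x
  have hchar : ringChar F = 2 := ringChar.eq F 2 ▸ rfl
  obtain ⟨y, hy⟩ := FiniteField.isSquare_of_char_two hchar (w.t - (homPi b c).t)
  set d : Fin m → ZMod 4 := fun i => (((b.repr y) i).val : ZMod 4) with hd
  have hdx : (homPi b d).x = y := homPi_lift_x b y
  refine ⟨c + 2 • d, ?_⟩
  rw [map_add, map_nsmul, two_nsmul_W, hdx]
  ext
  · simp [hcx]
  · simp only [W.add_t, mul_zero, add_zero]
    rw [← hy]; ring

theorem exists_equiv_W {m : ℕ} (hm : m ≠ 0) :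
    Nonempty ((Fin m → ZMod 4) ≃+ W (GaloisField 2 m)) := by
  classical
  have : Fact (Nat.Prime 2) := ⟨Nat.prime_two⟩
  let F := GaloisField 2 m
  let _ : Fintype F := Fintype.ofFinite F
  have hF : Fintype.card F = 2 ^ m := by
    rw [← Nat.card_eq_fintype_card]
    exact GaloisField.card 2 m hm
  let b : Module.Basis (Fin m) (ZMod 2) F :=
    Module.finBasisOfFinrankEq (ZMod 2) F (GaloisField.finrank 2 hm)
  have hsurj := homPi_surjective b
  have hcard : Fintype.card (Fin m → ZMod 4) = Fintype.card (W F) := by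
    rw [W.card_W, hF]
    simp only [Fintype.card_pi, ZMod.card, Finset.prod_const, Finset.card_univ, Fintype.card_fin]
    rw [← mul_pow]
    norm_num
  have hbij : Function.Bijective (homPi b) :=
    (Fintype.bijective_iff_surjective_and_card _).mpr ⟨hsurj, hcard⟩
  exact ⟨AddEquiv.ofBijective (homPi b) hbij⟩

end Run7.h268
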