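import Mathlib
import Pool.Agent.Run7.h268.AbelianBasis
import Pool.Agent.Run7.h268.WittIso

/-!
# A tuple of `W F × ZMod 2` whose sums of two entries with different indices cover the group
-/

set_option autoImplicit false

namespace Run7.h268

variable {F : Type} [Field F] [Fintype F] [CharP F 2]

/-- The tuple, indexed by `F ⊕ F ⊕ U ⊕ V ⊕ V`. -/
def wittTuple (F : Type) [Field F] (U V : Finset F) :
    F ⊕ (F ⊕ (U ⊕ (V ⊕ V))) → W F × ZMod 2
  | .inl x => (⟨x, 0⟩, 0)
  | .inr (.inl x) => (⟨x, x * x⟩, 1)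
  | .inr (.inr (.inl u)) => (⟨0, u⟩, 0)
  | .inr (.inr (.inr (.inl v))) => (⟨0, v⟩, 0)
  | .inr (.inr (.inr (.inr v))) => (⟨0, v⟩, 1)

theorem wittTuple_covers {m : ℕ} (hm : Odd m)
    (hF : Fintype.card F = 2 ^ m) (U V : Finset F)
    (hUV : ∀ t, ∃ u ∈ U, ∃ v ∈ V, u + v = t) (g : W F × ZMod 2) :
    ∃ i j, i ≠ j ∧ wittTuple F U V i + wittTuple F U V j = g := by
  classical
  obtain ⟨⟨s, t⟩, e⟩ := g
  have he : e = 0 ∨ e = 1 := by
    revert e; decide
  have h11 : (1 : ZMod 2) + 1 = 0 := by decide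
  rcases he with rfl | rfl
  · by_cases hs : s = 0
    · subst hs
      obtain ⟨u, hu, v, hv, huv⟩ := hUV t
      refine ⟨.inr (.inr (.inl ⟨u, hu⟩)), .inr (.inr (.inr (.inl ⟨v, hv⟩))), by simp, ?_⟩
      ext
      · simp [wittTuple]
      · simp [wittTuple, huv]
      · simp [wittTuple]
    · rcases artin_schreier hm hF (t / (s * s)) with ⟨u, hu⟩ | ⟨u, hu⟩
      · have hu' : s * s * (u * u + u) = t := by rw [hu]; field_simp
        refine ⟨.inl (s * u), .inl (s * u + s), by simp [hs], ?_⟩
        have h0 := CharTwo.add_self_eq_zero (s * u)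
        ext
        · simp only [wittTuple, Prod.fst_add, W.add_x]
          linear_combination h0
        · simp only [wittTuple, Prod.fst_add, W.add_t]
          linear_combination hu'
        · simp [wittTuple]
      · have hu' : s * s * (u * u + u) = t + s * s := by rw [hu]; field_simp
        refine ⟨.inr (.inl (s * u)), .inr (.inl (s * u + s)), by simp [hs], ?_⟩
        have h0 := CharTwo.add_self_eq_zero (s * u)
        have h1 := CharTwo.add_self_eq_zero (s * u * (s * u))
        have h2 := CharTwo.add_self_eq_zero (s * s * u)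
        have h3 := CharTwo.add_self_eq_zero (s * s)
        ext
        · simp only [wittTuple, Prod.fst_add, W.add_x]
          linear_combination h0
        · simp only [wittTuple, Prod.fst_add, W.add_t]
          linear_combination hu' + h1 + h2 + h3
        · simp [wittTuple, h11]
  · by_cases hs : s = 0
    · subst hs
      obtain ⟨u, hu, v, hv, huv⟩ := hUV t
      refine ⟨.inr (.inr (.inl ⟨u, hu⟩)), .inr (.inr (.inr (.inr ⟨v, hv⟩))), by simp, ?_⟩
      ext
      · simp [wittTuple]
      · simp [wittTuple, huv]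
      · simp [wittTuple]
    · refine ⟨.inl (s + t / s), .inr (.inl (t / s)), by simp, ?_⟩
      have h0 := CharTwo.add_self_eq_zero (t / s)
      have h1 := CharTwo.add_self_eq_zero (t / s * (t / s))
      have h2 : s * (t / s) = t := by field_simp
      ext
      · simp only [wittTuple, Prod.fst_add, W.add_x]
        linear_combination h0
      · simp only [wittTuple, Prod.fst_add, W.add_t]
        linear_combination h2 + h1
      · simp [wittTuple]

/-- A tuple in `(ZMod 4) ^ (2 j + 1) × ZMod 2` of length at most `2 ^ (2 j + 2) + 5 * 2 ^ j`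
whose sums of two entries with different indices cover the group. -/
theorem exists_tuple (j : ℕ) : ∃ M : ℕ, M ≤ 2 ^ (2 * j + 2) + 5 * 2 ^ j ∧
    ∃ s : Fin M → (Fin (2 * j + 1) → ZMod 4) × ZMod 2,
      ∀ x, ∃ i k, i ≠ k ∧ s i + s k = x := by
  classical
  have : Fact (Nat.Prime 2) := ⟨Nat.prime_two⟩
  let F := GaloisField 2 (2 * j + 1)
  let _ : Fintype F := Fintype.ofFinite F
  have hF : Fintype.card F = 2 ^ (2 * j + 1) := by
    rw [← Nat.card_eq_fintype_card]
    exact GaloisField.card 2 (2 * j + 1) (by omega)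
  have : CharP F 2 := inferInstance
  obtain ⟨U, V, hU, hV, hUV⟩ := exists_add_cover F hF (j := j) (by omega)
  obtain ⟨φ⟩ := exists_equiv_W (m := 2 * j + 1) (by omega)
  let ι := F ⊕ (F ⊕ (U ⊕ (V ⊕ V)))
  let ψ : ι ≃ Fin (Fintype.card ι) := Fintype.equivFin ι
  let Φ : ((Fin (2 * j + 1) → ZMod 4) × ZMod 2) ≃+ W F × ZMod 2 :=
    AddEquiv.prodCongr φ (AddEquiv.refl _)
  refine ⟨Fintype.card ι, ?_, fun i => Φ.symm (wittTuple F U V (ψ.symm i)), ?_⟩
  · have h1 : Fintype.card ι = Fintype.card F + (Fintype.card F + (U.card + (V.card + V.card))) := by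
      simp [ι]
    rw [h1, hF]
    have h2 : 2 * j + 1 - j = j + 1 := by omega
    rw [h2] at hV
    calc 2 ^ (2 * j + 1) + (2 ^ (2 * j + 1) + (U.card + (V.card + V.card)))
        ≤ 2 ^ (2 * j + 1) + (2 ^ (2 * j + 1) + (2 ^ j + (2 ^ (j + 1) + 2 ^ (j + 1)))) := by omega
      _ = 2 ^ (2 * j + 2) + 5 * 2 ^ j := by ring
  · intro x
    obtain ⟨i, k, hik, hsum⟩ := wittTuple_covers ⟨j, rfl⟩ hF U V hUV (Φ x)
    refine ⟨ψ i, ψ k, fun h => hik (ψ.injective h), ?_⟩
    simp only [Equiv.symm_apply_apply]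
    rw [← map_add, hsum]
    simp

end Run7.h268
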