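import Mathlib
import Pool.Agent.Run7.h268.LinesK
import Pool.Agent.Run7.h268.WittTuple

/-!
# Near-perfect bases of `(ZMod 4) ^ m × ZMod 2 × ZMod q`
-/

set_option autoImplicit false

open Finset Filter
open scoped Pointwise

namespace Run7.h268

/-- The trivial bound: a basis `A` of a finite abelian group `G` has `2 |G| ≤ |A| (|A| + 1)`. -/
theorem two_mul_card_le {G : Type} [AddCommGroup G] [Fintype G] [DecidableEq G] (A : Finset G)
    (hA : ∀ x, ∃ a ∈ A, ∃ b ∈ A, a + b = x) :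
    2 * Fintype.card G ≤ A.card * (A.card + 1) := by
  classical
  let f : Sym2 G → G := Sym2.lift ⟨fun a b => a + b, fun a b => add_comm a b⟩
  have hsub : (Finset.univ : Finset G) ⊆ A.sym2.image f := by
    intro x _
    obtain ⟨a, ha, b, hb, hab⟩ := hA x
    exact Finset.mem_image.mpr ⟨s(a, b), Finset.mk_mem_sym2_iff.mpr ⟨ha, hb⟩, hab⟩
  have h1 : Fintype.card G ≤ A.sym2.card := by
    rw [← Finset.card_univ]
    exact (Finset.card_le_card hsub).trans Finset.card_image_le
  rw [Finset.card_sym2, Nat.choose_two_right] at h1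
  have h2 : 2 * ((A.card + 1) * (A.card + 1 - 1) / 2) ≤ (A.card + 1) * (A.card + 1 - 1) :=
    Nat.mul_div_le _ _
  calc 2 * Fintype.card G ≤ 2 * ((A.card + 1) * (A.card + 1 - 1) / 2) := by omega
    _ ≤ (A.card + 1) * (A.card + 1 - 1) := h2
    _ = A.card * (A.card + 1) := by simp [Nat.mul_comm]

theorem virtual_near_perfect (ε : ℝ) (hε : 0 < ε) :
    ∃ m : ℕ, ∃ᶠ q : ℕ+ in atTop, ∃ A : Finset (((Fin m → ZMod 4) × ZMod 2) × ZMod q),
      A + A = Finset.univ ∧
        |(A.card : ℝ) / Real.sqrt (2 * 4 ^ m * q) - Real.sqrt 2| < ε := by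
  classical
  -- choice of `j`
  obtain ⟨j, hj⟩ : ∃ j : ℕ, 5 / ε < j := exists_nat_gt _
  obtain ⟨M, hM, s, hs⟩ := exists_tuple j
  refine ⟨2 * j + 1, ?_⟩
  rw [Filter.frequently_atTop]
  intro q0
  set L : ℕ := (M - 1).factorial with hL
  have hLpos : 0 < L := Nat.factorial_pos _
  obtain ⟨k, hk⟩ : ∃ k : ℕ, 2 * (M * (2 * L + 1) : ℝ) / ε + q0 + 1 / ε < k := exists_nat_gt _
  set N : ℕ := k * L + 1 with hNdef
  have hN0 : 0 < N := Nat.succ_pos _
  have hcop2 : L.Coprime N := by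
    rw [hNdef]
    have : k * L + 1 = L * k + 1 := by ring
    rw [this]
    simp
  obtain ⟨A, hA, hcard⟩ := linesK s hs N hN0 hcop2
  rw [← hL] at hcard
  clear_value L
  have hqpos : 0 < N ^ 2 := by positivity
  have hkN : (k : ℝ) ≤ N := by
    rw [hNdef]; push_cast
    have : (1 : ℝ) ≤ L := by exact_mod_cast hLpos
    nlinarith [Nat.cast_nonneg (α := ℝ) k]
  have hNr : (0 : ℝ) < N := by exact_mod_cast hN0
  have hN1 : (1 : ℝ) ≤ N := by exact_mod_cast hN0
  have hkr : 2 * (M * (2 * L + 1) : ℝ) / ε + q0 + 1 / ε < N := lt_of_lt_of_le hk hkN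
  have hq0r : (0 : ℝ) < q0 := by exact_mod_cast q0.pos
  have hML : 0 ≤ 2 * (M * (2 * L + 1) : ℝ) / ε := by positivity
  have h1e : 0 < 1 / ε := by positivity
  refine ⟨⟨N ^ 2, hqpos⟩, ?_, A, ?_, ?_⟩
  · change (q0 : ℕ) ≤ N ^ 2
    have h1 : (q0 : ℝ) < N := by linarith
    have h2 : (q0 : ℕ) < N := by exact_mod_cast h1
    nlinarith
  · ext x
    simp only [Finset.mem_univ, iff_true]
    obtain ⟨a, ha, b, hb, hab⟩ := hA x
    exact Finset.mem_add.mpr ⟨a, ha, b, hb, hab⟩
  · change |(A.card : ℝ) / Real.sqrt (2 * 4 ^ (2 * j + 1) * ((N ^ 2 : ℕ) : ℝ)) - Real.sqrt 2| < ε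
    obtain ⟨P, hP⟩ : ∃ P : ℝ, P = 2 ^ (2 * j + 1) := ⟨_, rfl⟩
    have hPpos : 0 < P := by rw [hP]; positivity
    have hP1 : 1 ≤ P := by rw [hP]; exact one_le_pow₀ (by norm_num)
    have hs2 : (0 : ℝ) < Real.sqrt 2 := by positivity
    have h22 : Real.sqrt 2 * Real.sqrt 2 = 2 := Real.mul_self_sqrt (by norm_num)
    have h1s : (1 : ℝ) ≤ Real.sqrt 2 := by
      rw [show (1 : ℝ) = Real.sqrt 1 by simp]; exact Real.sqrt_le_sqrt (by norm_num)
    have h4P : (4 : ℝ) ^ (2 * j + 1) = P ^ 2 := by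
      rw [hP, ← pow_mul, mul_comm (2 * j + 1) 2, pow_mul]; norm_num
    have hsq : Real.sqrt (2 * 4 ^ (2 * j + 1) * ((N ^ 2 : ℕ) : ℝ)) = Real.sqrt 2 * (P * N) := by
      push_cast
      have : (2 : ℝ) * 4 ^ (2 * j + 1) * (N : ℝ) ^ 2 = 2 * (P * N) ^ 2 := by
        rw [h4P]; ring
      rw [this, Real.sqrt_mul (by norm_num), Real.sqrt_sq (by positivity)]
    rw [hsq]
    have hden : 0 < Real.sqrt 2 * (P * N) := by positivity
    rw [abs_lt]
    constructor
    · -- lower bound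
      have htriv := two_mul_card_le A hA
      have hG : Fintype.card (((Fin (2 * j + 1) → ZMod 4) × ZMod 2) × ZMod (N ^ 2)) =
          4 ^ (2 * j + 1) * 2 * N ^ 2 := by
        have : Fintype.card (ZMod (N ^ 2)) = N ^ 2 := ZMod.card (N ^ 2)
        rw [Fintype.card_prod, Fintype.card_prod, this, ZMod.card]
        simp
      rw [hG] at htriv
      have htr : 2 * (Real.sqrt 2 * (P * N)) ^ 2 ≤ (A.card : ℝ) * (A.card + 1) := by
        have h3 : (2 * (4 ^ (2 * j + 1) * 2 * N ^ 2 : ℕ) : ℝ) ≤ (A.card : ℝ) * (A.card + 1) := by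
          exact_mod_cast htriv
        have h4 : 2 * (Real.sqrt 2 * (P * N)) ^ 2 = (2 * (4 ^ (2 * j + 1) * 2 * N ^ 2 : ℕ) : ℝ) := by
          push_cast
          rw [mul_pow, Real.sq_sqrt (by norm_num), h4P]
          ring
        rw [h4]; exact h3
      have hge : Real.sqrt 2 * (Real.sqrt 2 * (P * N)) ≤ A.card + 1 := by
        have h5 : (Real.sqrt 2 * (Real.sqrt 2 * (P * N))) ^ 2 ≤ ((A.card : ℝ) + 1) ^ 2 := by
          rw [mul_pow, Real.sq_sqrt (by norm_num : (0 : ℝ) ≤ 2)]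
          nlinarith [Nat.cast_nonneg (α := ℝ) A.card]
        exact le_of_sq_le_sq h5 (by positivity)
      have h6 : 1 < ε * (Real.sqrt 2 * (P * N)) := by
        have h7 : 1 / ε < N := by linarith
        rw [div_lt_iff₀ hε] at h7
        have h8 : (N : ℝ) ≤ Real.sqrt 2 * (P * N) := by
          have : (N : ℝ) ≤ P * N := le_mul_of_one_le_left hNr.le hP1
          nlinarith
        nlinarith
      have h14 : Real.sqrt 2 - ε < (A.card : ℝ) / (Real.sqrt 2 * (P * N)) := by
        rw [lt_div_iff₀ hden]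
        linarith
      linarith
    · -- upper bound
      rw [sub_lt_iff_lt_add, div_lt_iff₀ hden]
      have hcr : (A.card : ℝ) ≤ M * (N + 2 * L + 1) := by exact_mod_cast hcard
      have hMr : (M : ℝ) ≤ 2 * P + 5 * 2 ^ j := by
        have : (M : ℝ) ≤ 2 ^ (2 * j + 2) + 5 * 2 ^ j := by exact_mod_cast hM
        calc (M : ℝ) ≤ 2 ^ (2 * j + 2) + 5 * 2 ^ j := this
          _ = 2 * P + 5 * 2 ^ j := by rw [hP]; ring
      have h9 : 2 * (M * (2 * L + 1) : ℝ) < ε * N := by
        have : 2 * (M * (2 * L + 1) : ℝ) / ε < N := by linarith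
        rw [div_lt_iff₀ hε] at this
        linarith
      have hjj : (j : ℝ) ≤ 2 ^ j := by
        exact_mod_cast (Nat.lt_two_pow_self (n := j)).le
      have h10 : 5 < ε * 2 ^ j := by
        have := (div_lt_iff₀ hε).mp hj
        nlinarith
      have h2j : (0 : ℝ) < 2 ^ j := by positivity
      have hPj : P = 2 * (2 ^ j * 2 ^ j) := by rw [hP]; ring
      have h11 : 5 * 2 ^ j ≤ ε * P / 2 := by
        rw [hPj]; nlinarith
      calc (A.card : ℝ) ≤ M * N + M * (2 * L + 1) := by linarith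
        _ < M * N + ε * N / 2 := by linarith
        _ ≤ (2 * P + ε * P / 2) * N + ε * (P * N) / 2 := by
            have h12 : (M : ℝ) * N ≤ (2 * P + ε * P / 2) * N := by
              apply mul_le_mul_of_nonneg_right _ hNr.le
              linarith
            have h13 : ε * N ≤ ε * (P * N) :=
              mul_le_mul_of_nonneg_left (le_mul_of_one_le_left hNr.le hP1) hε.le
            linarith
        _ = 2 * (P * N) + ε * (P * N) := by ring
        _ ≤ 2 * (P * N) + ε * (Real.sqrt 2 * (P * N)) := by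
            have h15 : P * N ≤ Real.sqrt 2 * (P * N) :=
              le_mul_of_one_le_left (by positivity) h1s
            have h16 := mul_le_mul_of_nonneg_left h15 hε.le
            linarith
        _ = (ε + Real.sqrt 2) * (Real.sqrt 2 * (P * N)) := by
            have : (ε + Real.sqrt 2) * (Real.sqrt 2 * (P * N)) =
              (Real.sqrt 2 * Real.sqrt 2) * (P * N) + ε * (Real.sqrt 2 * (P * N)) := by ring
            rw [this, h22]

end Run7.h268
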