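import Mathlib
import Pool.Agent.Run7.h268.AbelianBasis

/-!
# Near-perfect additive bases of finite abelian groups: the asymptotic statement
-/

set_option autoImplicit false

open scoped Pointwise

namespace Run7.h268

/-- For each `j` there is a finite abelian group of order `2 ^ (4 j + 3)` with a basis of size
between `2 ^ (2 j + 2)` and `2 ^ (2 j + 2) + 3 * 2 ^ j`. -/
theorem exists_group_basis (j : ℕ) :
    ∃ (G : Type) (_ : AddCommGroup G) (_ : Fintype G) (_ : DecidableEq G) (A : Finset G),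
      Fintype.card G = 2 ^ (4 * j + 3) ∧ A + A = Finset.univ ∧
        2 ^ (2 * j + 2) ≤ A.card ∧ A.card ≤ 2 ^ (2 * j + 2) + 3 * 2 ^ j := by
  classical
  have : Fact (Nat.Prime 2) := ⟨Nat.prime_two⟩
  let F := GaloisField 2 (2 * j + 1)
  let _ : Fintype F := Fintype.ofFinite F
  have hF : Fintype.card F = 2 ^ (2 * j + 1) := by
    rw [← Nat.card_eq_fintype_card]
    exact GaloisField.card 2 (2 * j + 1) (by omega)
  have : CharP F 2 := inferInstance
  obtain ⟨U, V, hU, hV, hUV⟩ := exists_add_cover F hF (j := j) (by omega)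
  refine ⟨W F × ZMod 2, inferInstance, inferInstance, inferInstance, basisSet F U V, ?_, ?_, ?_, ?_⟩
  · rw [Fintype.card_prod, W.card_W, hF, ZMod.card]
    rw [← pow_add, ← pow_succ]
    congr 1
    omega
  · ext g
    simp only [Finset.mem_univ, iff_true]
    obtain ⟨a, ha, b, hb, hab⟩ := basisSet_covers ⟨j, rfl⟩ hF U V hUV g
    exact Finset.mem_add.mpr ⟨a, ha, b, hb, hab⟩
  · have := basisSet_card_ge U V
    rw [hF] at this
    calc 2 ^ (2 * j + 2) = 2 * 2 ^ (2 * j + 1) := by ring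
      _ ≤ _ := this
  · have h := basisSet_card_le U V
    rw [hF] at h
    have h2 : 2 * j + 1 - j = j + 1 := by omega
    rw [h2] at hV
    calc (basisSet F U V).card ≤ 2 * 2 ^ (2 * j + 1) + (U.card + V.card) := h
      _ ≤ 2 * 2 ^ (2 * j + 1) + (2 ^ j + 2 ^ (j + 1)) := by omega
      _ = 2 ^ (2 * j + 2) + 3 * 2 ^ j := by ring

/-- The analogue of the question for finite abelian groups has a positive answer. -/
theorem abelian_near_perfect (ε : ℝ) (hε : 0 < ε) (B : ℕ) :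
    ∃ (G : Type) (_ : AddCommGroup G) (_ : Fintype G) (_ : DecidableEq G) (A : Finset G),
      B ≤ Fintype.card G ∧ A + A = Finset.univ ∧
        |(A.card : ℝ) / Real.sqrt (Fintype.card G) - Real.sqrt 2| < ε := by
  obtain ⟨k, hk⟩ : ∃ k : ℕ, 3 / ε < k := exists_nat_gt _
  set j := k + B with hj
  obtain ⟨G, i1, i2, i3, A, hcard, hcov, hge, hle⟩ := exists_group_basis j
  refine ⟨G, i1, i2, i3, A, ?_, hcov, ?_⟩
  · rw [hcard]
    calc B ≤ 4 * j + 3 := by omega
      _ ≤ 2 ^ (4 * j + 3) := Nat.lt_two_pow_self.le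
  · have hs2 : (0 : ℝ) < Real.sqrt 2 := by positivity
    have h22 : Real.sqrt 2 * Real.sqrt 2 = 2 := Real.mul_self_sqrt (by norm_num)
    have h1s : (1 : ℝ) ≤ Real.sqrt 2 := by
      rw [show (1 : ℝ) = Real.sqrt 1 by simp]; exact Real.sqrt_le_sqrt (by norm_num)
    have hsq : Real.sqrt ((Fintype.card G : ℕ) : ℝ) = 2 ^ (2 * j + 1) * Real.sqrt 2 := by
      rw [hcard]
      push_cast
      have : (2 : ℝ) ^ (4 * j + 3) = (2 ^ (2 * j + 1)) ^ 2 * 2 := by ring
      rw [this, Real.sqrt_mul (by positivity), Real.sqrt_sq (by positivity)]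
    rw [hsq]
    have hP : (0 : ℝ) < 2 ^ (2 * j + 1) := by positivity
    have hge' : (2 : ℝ) ^ (2 * j + 2) ≤ A.card := by exact_mod_cast hge
    have hle' : (A.card : ℝ) ≤ 2 ^ (2 * j + 2) + 3 * 2 ^ j := by exact_mod_cast hle
    have hden : (0 : ℝ) < 2 ^ (2 * j + 1) * Real.sqrt 2 := by positivity
    have hlow : 0 ≤ (A.card : ℝ) / (2 ^ (2 * j + 1) * Real.sqrt 2) - Real.sqrt 2 := by
      rw [sub_nonneg, le_div_iff₀ hden]
      calc Real.sqrt 2 * (2 ^ (2 * j + 1) * Real.sqrt 2)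
          = (Real.sqrt 2 * Real.sqrt 2) * 2 ^ (2 * j + 1) := by ring
        _ = 2 ^ (2 * j + 2) := by rw [h22]; ring
        _ ≤ _ := hge'
    rw [abs_of_nonneg hlow, sub_lt_iff_lt_add, div_lt_iff₀ hden]
    have hj1 : (k : ℝ) ≤ 2 ^ (j + 1) := by
      have h1 : k ≤ 2 ^ (j + 1) := by
        calc k ≤ j + 1 := by omega
          _ ≤ 2 ^ (j + 1) := Nat.lt_two_pow_self.le
      exact_mod_cast h1
    have h3 : 3 < ε * 2 ^ (j + 1) := by
      have := (div_lt_iff₀ hε).mp hk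
      nlinarith
    have hpj : (0 : ℝ) < 2 ^ j := by positivity
    calc (A.card : ℝ) ≤ 2 ^ (2 * j + 2) + 3 * 2 ^ j := hle'
      _ < 2 ^ (2 * j + 2) + (ε * 2 ^ (j + 1)) * 2 ^ j := by gcongr
      _ = 2 ^ (2 * j + 2) + ε * 2 ^ (2 * j + 1) * 1 := by ring
      _ ≤ 2 ^ (2 * j + 2) + ε * 2 ^ (2 * j + 1) * Real.sqrt 2 := by gcongr
      _ = (ε + Real.sqrt 2) * (2 ^ (2 * j + 1) * Real.sqrt 2) := by
          have : (ε + Real.sqrt 2) * (2 ^ (2 * j + 1) * Real.sqrt 2) =
            (Real.sqrt 2 * Real.sqrt 2) * 2 ^ (2 * j + 1) + ε * 2 ^ (2 * j + 1) * Real.sqrt 2 := by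
            ring
          rw [this, h22]; ring

end Run7.h268
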